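import Pool.Agent.Lib.helper18.Widom5

namespace Pool.Agent.Results.MP_7fabd3_an.ThreeBands
open MeasureTheory Set Real Polynomial H18Widom
open scoped ENNReal

/-- the union of the bands -/
def gapSet {l : ℕ} (α β : Fin (l + 1) → ℝ) : Set ℝ := ⋃ j, Icc (α j) (β j)

/-- the reflectionless measure attached to `γ`, with `(1/π) Im G_γ(x+i0)` written out -/
noncomputable def refl {l : ℕ} (α β : Fin (l + 1) → ℝ) (γ : Fin l → ℝ) : Measure ℝ :=
  (volume.restrict (gapSet α β)).withDensity fun x =>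
    ENNReal.ofReal ((∏ j, |x - γ j|) / (π * √(∏ j, |(x - α j) * (x - β j)|)))

/-- logarithmic energy plus `log D` -/
noncomputable def energy (D : ℝ) (ν : Measure ℝ) : ℝ≥0∞ :=
  ∫⁻ x, ∫⁻ y, (if x = y then ⊤ else ENNReal.ofReal (log (D / |x - y|))) ∂ν ∂ν

/-- a probability measure on `K` of finite and least energy -/
def IsEquil (K : Set ℝ) (D : ℝ) (μ : Measure ℝ) : Prop :=
  IsProbabilityMeasure μ ∧ μ Kᶜ = 0 ∧ energy D μ < ⊤ ∧
    ∀ ν : Measure ℝ, IsProbabilityMeasure ν → ν Kᶜ = 0 → energy D μ ≤ energy D ν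

/-- the Szegő quantity -/
noncomputable def szego (μ μK : Measure ℝ) : ℝ := exp (∫ x, log (μ.rnDeriv μK x).toReal ∂μK)

lemma gap_eq : gapSet ![-5, -3, 4] ![-4, 3, 5] = Kx := by
  ext x
  simp [gapSet, Kx, Fin.exists_fin_succ, or_assoc]

lemma refl_eq : refl ![-5, -3, 4] ![-4, 3, 5] ![-√15, √15] = m 15 := by
  rw [refl, gap_eq, m]
  congr 1
  ext x
  simp only [Fin.prod_univ_succ, Fin.prod_univ_zero, Matrix.cons_val_zero, Matrix.cons_val_succ,
    mul_one, dens, ← abs_mul]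
  have := Real.sq_sqrt (show (0 : ℝ) ≤ 15 by norm_num)
  congr 4
  · linear_combination -this
  · congr 1; ring

theorem result : ∃ (l : ℕ) (α β : Fin (l + 1) → ℝ) (γ : Fin l → ℝ) (D : ℝ) (μK : Measure ℝ),
    (∀ j, α j < β j) ∧ (∀ j : Fin l, β j.castSucc < α j.succ) ∧
    (∀ j : Fin l, γ j ∈ Icc (β j.castSucc) (α j.succ)) ∧
    Metric.diam (gapSet α β) < D ∧ IsEquil (gapSet α β) D μK ∧
    IsProbabilityMeasure (refl α β γ) ∧ (∀ᵐ x ∂μK, (refl α β γ).rnDeriv μK x ≠ 0) ∧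
    Integrable (fun x => log ((refl α β γ).rnDeriv μK x).toReal) μK ∧
    ∃ (n : ℕ) (P : ℝ[X]), 1 ≤ n ∧ P.Monic ∧ P.natDegree = n ∧
      Integrable (fun x => P.eval x ^ 2) (refl α β γ) ∧
      (∫ x, P.eval x ^ 2 ∂refl α β γ) / (D * exp (-(energy D μK).toReal)) ^ (2 * n) <
        2 * szego (refl α β γ) μK := by
  haveI := mass0
  have hKD : ∀ x ∈ Kx, ∀ y ∈ Kx, |x - y| ≤ 10 := by
    have h5 : ∀ x ∈ Kx, |x| ≤ 5 := by
      intro x hx
      rw [abs_le]
      rcases hx with (h | h) | h <;> constructor <;> linarith [h.1, h.2]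
    intro x hx y hy
    linarith [abs_sub x y, h5 x hx, h5 y hy]
  have hmin := fun (ν : Measure ℝ) (h : IsProbabilityMeasure ν) (hν : ν Kxᶜ = 0) =>
    minimal (D := 11) (by norm_num) (fun x hx y hy => (hKD x hx y hy).trans (by norm_num))
      (m (25 / 2)) ν (m_K _) hν ENNReal.ofReal_ne_top U_K
  have hE : energy 11 (m (25 / 2)) = ENNReal.ofReal (log 11 - log 36 / 4) :=
    (hmin _ mass0 (m_K _)).1
  have s1 : (3 : ℝ) ≤ √15 := Real.le_sqrt_of_sq_le (by norm_num)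
  have s2 : √15 ≤ (4 : ℝ) := Real.sqrt_le_iff.2 ⟨by norm_num, by norm_num⟩
  have h2 : ∫⁻ y, ENNReal.ofReal (y ^ 2) ∂(m 15) = ENNReal.ofReal 10 := by
    simpa using mom 0 1 le_rfl zero_le_one
  have hi : Integrable (fun x : ℝ => x ^ 2) (m 15) := by
    refine ⟨by fun_prop, ?_⟩
    rw [hasFiniteIntegral_iff_ofReal (Filter.Eventually.of_forall fun y => sq_nonneg y), h2]
    exact ENNReal.ofReal_lt_top
  refine ⟨2, ![-5, -3, 4], ![-4, 3, 5], ![-√15, √15], 11, m (25 / 2), ?_, ?_, ?_, ?_, ?_, ?_⟩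
  · intro j; fin_cases j <;> norm_num
  · intro j; fin_cases j <;> simp <;> norm_num
  · intro j; fin_cases j <;> simp [s1, s2]
  · rw [gap_eq]
    exact (Metric.diam_le_of_forall_dist_le (by norm_num) hKD).trans_lt (by norm_num)
  · rw [gap_eq]
    exact ⟨inferInstance, m_K _, by rw [hE]; exact ENNReal.ofReal_lt_top,
      fun ν h hν => (hmin ν h hν).2⟩
  rw [refl_eq]
  refine ⟨⟨by simpa using mom 1 0 zero_le_one le_rfl⟩, rn_pos, szego_val.1, 1, X, le_rfl, monic_X,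
    natDegree_X, by simpa using hi, ?_⟩
  have hv : 0 ≤ log 11 - log 36 / 4 := by
    have : log 36 ≤ log (11 ^ 4) := log_le_log (by positivity) (by norm_num)
    rw [log_pow] at this
    push_cast at this
    linarith
  have e1 : ∫ x, eval x (X : ℝ[X]) ^ 2 ∂m 15 = 10 := by
    simp only [eval_X]
    rw [integral_eq_lintegral_of_nonneg_ae (Filter.Eventually.of_forall fun y => sq_nonneg y)
      hi.1, h2]
    simp
  have e2 : (11 * exp (-(log 11 - log 36 / 4))) ^ (2 * 1) = 6 := by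
    rw [neg_sub, exp_sub, exp_log (by norm_num), mul_div_cancel₀ _ (by norm_num), ← exp_nat_mul,
      show (36 : ℝ) = 6 ^ 2 by norm_num, log_pow]
    conv_rhs => rw [← exp_log (show (0 : ℝ) < 6 by norm_num)]
    congr 1
    push_cast; ring
  rw [e1, hE, ENNReal.toReal_ofReal hv, e2, szego, szego_val.2]
  have e3 : exp (log (27 / 32) / 2) ^ 2 = 27 / 32 := by
    rw [← exp_nat_mul]
    conv_rhs => rw [← exp_log (show (0 : ℝ) < 27 / 32 by norm_num)]
    congr 1
    push_cast; ring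
  have := exp_pos (log (27 / 32) / 2)
  nlinarith

end Pool.Agent.Results.MP_7fabd3_an.ThreeBands
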